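import Mathlib

/-!
# DGC: counting hyperbolic generalised Fermat triples (MP_be1fae_nt), definitions

THEOREM.  For every `ε > 0` there are `η > 0` and `K` such that for all `N ≥ 1` at most `K N^ε` coprime triples
`(A,B,E)`, `A + B = E`, of size at most `N` are of the form `(a x^p, b y^q, c z^r)` with `1/p + 1/q + 1/r < 1`
and `rad(abc) ≤ N^η`.

Exponents `≥ R(ε)`: hand-in AlmostPowers.  Fixed `(p,q,r)`: `t = A/E` is an orbifold point of `ℙ¹(p,q,r)`; we use an
`n`-sheeted cover `F(T,Y) = 0` of the `T`-line, `n` large, ramified over `0, 1, ∞` with indices dividing `p, q, r`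
(constructed with Poincaré series for `Γ(2)` and the function `λ`), descend it to a number field (certificate `Cert`),
bound the ramification of the field of a root of `F(t,Y)`, and count the `t` with the determinant method.
-/

set_option autoImplicit false

namespace Pool.Agent.DGC

open UpperHalfPlane Complex Filter Topology Polynomial
open scoped MatrixGroups Manifold

/-! ### Part I: the upper half plane -/

/-- holomorphic functions on the upper half plane -/
def Hol (f : ℍ → ℂ) : Prop := MDifferentiable 𝓘(ℂ) 𝓘(ℂ) f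

/-- `Γ(2)` -/
abbrev G2 : Subgroup SL(2, ℤ) := CongruenceSubgroup.Gamma 2

/-- invariance under `Γ(2)` -/
def Inv2 (f : ℍ → ℂ) : Prop := ∀ γ ∈ G2, ∀ z : ℍ, f (γ • z) = f z

/-- the parabolic generator at the cusp `i∞` -/
def gT : G2 := ⟨ModularGroup.T ^ 2, by rw [CongruenceSubgroup.Gamma_mem]; decide⟩

/-- the parabolic generator at the cusp `0` -/
def gS : G2 := ⟨ModularGroup.S * ModularGroup.T ^ 2 * ModularGroup.S⁻¹, by
  rw [CongruenceSubgroup.Gamma_mem]; decide⟩

/-- the parabolic generator at the cusp `1` -/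
def gC : G2 := ⟨(ModularGroup.T * ModularGroup.S) * ModularGroup.T ^ 2 *
  (ModularGroup.T * ModularGroup.S)⁻¹, by rw [CongruenceSubgroup.Gamma_mem]; decide⟩

/-- `-1` -/
def gN : G2 := ⟨-1, by rw [CongruenceSubgroup.Gamma_mem]; decide⟩

/-- the properties of the function `λ` that are used -/
structure IsLam (lam : ℍ → ℂ) : Prop where
  hol : Hol lam
  ne0 : ∀ z, lam z ≠ 0
  ne1 : ∀ z, lam z ≠ 1
  smulT : ∀ z : ℍ, lam (ModularGroup.T • z) = lam z / (lam z - 1)
  smulS : ∀ z : ℍ, lam (ModularGroup.S • z) = 1 - lam z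
  asym : Tendsto (fun z : ℍ => lam z * Complex.exp (-(Real.pi * Complex.I * z))) atImInfty (𝓝 16)
  deriv_ne : ∀ z : ℍ, deriv (lam ∘ ofComplex) z ≠ 0

/-- `J(λ) = (1 - λ + λ²)³ / (λ² (1 - λ)²)` -/
noncomputable def Jl (x : ℂ) : ℂ := (1 - x + x ^ 2) ^ 3 / (x ^ 2 * (1 - x) ^ 2)

/-- `|a z + b|² + |c z + d|²` -/
noncomputable def dd (γ : SL(2, ℤ)) (z : ℍ) : ℝ :=
  ‖(γ 0 0 : ℂ) * z + (γ 0 1 : ℂ)‖ ^ 2 + ‖(γ 1 0 : ℂ) * z + (γ 1 1 : ℂ)‖ ^ 2

open scoped Classical in
/-- the seed of the Poincaré series -/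
noncomputable def seed (lam : ℍ → ℂ) (z₀ w : ℍ) : ℂ :=
  (if w = z₀ then deriv (lam ∘ ofComplex) z₀ else (lam w - lam z₀) / ((w : ℂ) - z₀)) *
    (((w : ℂ) + Complex.I) ^ 11)⁻¹

/-- a term of the Poincaré series of weight `12` -/
noncomputable def pterm (lam : ℍ → ℂ) (z₀ : ℍ) (γ : SL(2, ℤ)) (z : ℍ) : ℂ :=
  seed lam z₀ (γ • z) * (((γ 1 0 : ℂ) * z + (γ 1 1 : ℂ)) ^ 12)⁻¹

open scoped Classical in
/-- the Poincaré series of the class `q` -/
noncomputable def pser {Q : Type} [Group Q] (lam : ℍ → ℂ) (z₀ : ℍ) (ρ : G2 →* Q) (q : Q) (z : ℍ) : ℂ :=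
  ∑' γ : G2, if ρ γ = q then pterm lam z₀ γ z else 0

/-! ### Part II: certificates -/

variable {R : Type*} [CommRing R]

/-- the discriminant of a polynomial of degree `n`, up to sign -/
noncomputable def dsc (n : ℕ) (F : R[X]) : R := resultant F (derivative F) n (n - 1)

/-- the polynomial at `T = ∞`: `V^(κ n) F(1/V, Y / V^κ)` -/
noncomputable def Finf (κ n : ℕ) (F : R[X][X]) : R[X][X] :=
  ∑ i ∈ Finset.range (n + 1), C (reflect (κ * (n - i)) (F.coeff i)) * X ^ i

/-- no monic factorisation -/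
def NoFac (F : R[X][X]) : Prop :=
  ∀ G H : R[X][X], G.Monic → H.Monic → G * H = F → G = 1 ∨ H = 1

/-- the indices of the coefficients of two unknown factors -/
abbrev FIdx (B n : ℕ) := (Fin n × Fin (B + 1)) ⊕ (Fin n × Fin (B + 1))

/-- the first unknown factor, of degree `n₁` -/
noncomputable def ufac1 (R : Type*) [CommRing R] (B n n₁ : ℕ) : (MvPolynomial (FIdx B n) R)[X][X] :=
  X ^ n₁ + ∑ i ∈ (Finset.univ : Finset (Fin n)).filter (fun i => i.1 < n₁), ∑ j : Fin (B + 1),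
    C (C (MvPolynomial.X (Sum.inl (i, j))) * X ^ (j : ℕ)) * X ^ (i : ℕ)

/-- the second unknown factor, of degree `n₁` -/
noncomputable def ufac2 (R : Type*) [CommRing R] (B n n₁ : ℕ) : (MvPolynomial (FIdx B n) R)[X][X] :=
  X ^ n₁ + ∑ i ∈ (Finset.univ : Finset (Fin n)).filter (fun i => i.1 < n₁), ∑ j : Fin (B + 1),
    C (C (MvPolynomial.X (Sum.inr (i, j))) * X ^ (j : ℕ)) * X ^ (i : ℕ)

/-- the ideal generated by the equations `F = G H`, `G`, `H` monic of degrees `n₁`, `n - n₁` with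
coefficients of degree at most `B` in `T` -/
noncomputable def facIdeal (B n n₁ : ℕ) (F : R[X][X]) : Ideal (MvPolynomial (FIdx B n) R) :=
  Ideal.span (Set.range fun ij : ℕ × ℕ =>
    ((F.map (mapRingHom MvPolynomial.C) - ufac1 R B n n₁ * ufac2 R B n (n - n₁)).coeff ij.1).coeff ij.2)

/-- irreducibility certificate: the equations of all factorisations have no solution -/
def IrrU (B n : ℕ) (F : R[X][X]) : Prop :=
  ∀ n₁, 0 < n₁ → n₁ < n → facIdeal B n n₁ F = ⊤

/-- the exponents at the finite special points -/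
def ex (p q : ℕ) {s : ℕ} (j : Fin (s + 2)) : ℕ := if j = 0 then p else if j = 1 then q else 1

/-- certificate for an `n`-sheeted cover of the `T`-line with ramification `p, q, r` over `0, 1, ∞` -/
structure Cert (R : Type*) [CommRing R] (p q r n : ℕ) where
  /-- growth of the roots at infinity -/
  κ : ℕ
  /-- the equation -/
  F : R[X][X]
  monic : F.Monic
  deg : F.natDegree = n
  degT : ∀ i, (F.coeff i).natDegree ≤ κ * (n - i)
  /-- number of other special points -/
  s : ℕ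
  /-- the special points, `T 0 = 0`, `T 1 = 1` -/
  T : Fin (s + 2) → R
  T0 : T 0 = 0
  T1 : T 1 = 1
  sep : ∀ i j, i ≠ j → IsUnit (T i - T j)
  /-- leading coefficient of the discriminant -/
  c : R
  hc : IsUnit c
  /-- multiplicities of the discriminant -/
  d : Fin (s + 2) → ℕ
  disc : dsc n F = C c * ∏ j, (X - C (T j)) ^ d j
  /-- precision -/
  m : ℕ
  /-- truncated Puiseux series of the roots -/
  g : Fin (s + 2) → Fin n → R[X]
  loc : ∀ j, C (X ^ m) ∣ F.map (compRingHom (C (T j) + X ^ ex p q j)) - ∏ i, (X - C (g j i))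
  prec : ∀ j, n * (ex p q j * d j) < m
  /-- unit part of the discriminant at infinity -/
  W : R[X]
  hW : IsUnit (W.coeff 0)
  /-- multiplicity of the discriminant at infinity -/
  dinf : ℕ
  discinf : dsc n (Finf κ n F) = X ^ dinf * W
  /-- truncated Puiseux series at infinity -/
  ginf : Fin n → R[X]
  locinf : C (X ^ m) ∣ (Finf κ n F).map (compRingHom (X ^ r)) - ∏ i, (X - C (ginf i))
  precinf : n * (r * dinf) < m
  irr : IrrU (κ * n) n F

/-! ### Part V: the sets that are counted -/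

/-- the radical -/
def rad (n : ℤ) : ℕ := ∏ l ∈ n.natAbs.primeFactors, l

/-- coprime triples `a x^p + b y^q = c z^r` of size at most `N` with `rad (abc) ≤ N^η`, for one signature -/
def SigTr (p q r : ℕ) (η : ℝ) (N : ℕ) : Set (ℤ × ℤ × ℤ) :=
  {t | t.1 + t.2.1 = t.2.2 ∧ |t.1| ≤ N ∧ |t.2.1| ≤ N ∧ |t.2.2| ≤ N ∧ IsCoprime t.1 t.2.2 ∧
    ∃ a b c x y z : ℤ, a ≠ 0 ∧ b ≠ 0 ∧ c ≠ 0 ∧ x ≠ 0 ∧ y ≠ 0 ∧ z ≠ 0 ∧
      t.1 = a * x ^ p ∧ t.2.1 = b * y ^ q ∧ t.2.2 = c * z ^ r ∧ (rad (a * b * c) : ℝ) ≤ (N : ℝ) ^ η}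

end Pool.Agent.DGC
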